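import Pool.Agent.Helper7.EC_E.GoalsR

/-!
# MP_ecc237_nt, PART E, packet EE
-/

set_option autoImplicit false

open MeasureTheory Filter Topology Set

namespace EC237.ZE.PkEE

noncomputable section

/-- the error size -/
def e (z : ℝ) (n : ℤ) : ℝ := if n = 0 then 0 else Real.exp (-(|(n:ℝ)| * z))

theorem e_nonneg (z : ℝ) (n : ℤ) : 0 ≤ e z n := by
  unfold e; split_ifs
  · exact le_rfl
  · exact (Real.exp_pos _).le

theorem e_pos_case (z : ℝ) (n : ℤ) (hn : 0 < n) : e z n = Real.exp (-((n:ℝ) * z)) := by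
  unfold e
  rw [if_neg hn.ne', abs_of_pos (by exact_mod_cast hn)]

theorem e_neg_case (z : ℝ) (n : ℤ) (hn : n < 0) : e z n = Real.exp (-(-(n:ℝ) * z)) := by
  unfold e
  rw [if_neg hn.ne, abs_of_neg (by exact_mod_cast hn)]

def CEc (C : ℝ) : Prop := ∀ (c : ℤ) (T : ℝ), 1 ≤ T →
  ‖Sf 1 c (-(Complex.I * T)) - Complex.I * (Real.pi / 6)‖ ≤ C * Real.exp (-T) ∧
  ‖Sf 1 c (Complex.I * T) + Complex.I * (Real.pi / 6)‖ ≤ C * Real.exp (-T) ∧
  ∀ r : ℕ, 2 ≤ r → r ≤ 4 →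
    ‖Sf r c (-(Complex.I * T))‖ ≤ C * Real.exp (-T) ∧ ‖Sf r c (Complex.I * T)‖ ≤ C * Real.exp (-T)

theorem one_le_mul' (z : ℝ) (hz : 1 ≤ z) (n : ℤ) (hn : 0 < n) : 1 ≤ (n:ℝ) * z := by
  have h1 : (1:ℝ) ≤ n := by exact_mod_cast hn
  nlinarith

theorem one_le_mul'' (z : ℝ) (hz : 1 ≤ z) (n : ℤ) (hn : n < 0) : 1 ≤ -(n:ℝ) * z := by
  have h1 : (n:ℝ) ≤ -1 := by exact_mod_cast (by omega : n ≤ -1)
  nlinarith

theorem arg1 (z : ℝ) (n : ℤ) : -(Complex.I * (n:ℂ) * z) = -(Complex.I * (((n:ℝ) * z : ℝ) : ℂ)) := by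
  push_cast; ring
theorem arg2 (z : ℝ) (n : ℤ) : -(Complex.I * (n:ℂ) * z) = Complex.I * ((-(n:ℝ) * z : ℝ) : ℂ) := by
  push_cast; ring
theorem arg3 (z : ℝ) (n : ℤ) : (Complex.I * (n:ℂ) * z) = (Complex.I * (((n:ℝ) * z : ℝ) : ℂ)) := by
  push_cast; ring
theorem arg4 (z : ℝ) (n : ℤ) : (Complex.I * (n:ℂ) * z) = -(Complex.I * ((-(n:ℝ) * z : ℝ) : ℂ)) := by
  push_cast; ring

theorem Sa1 (C : ℝ) (h : CEc C) (c : ℤ) (v : ℝ) (hv : Sf 1 c 0 = (v:ℂ)) (z : ℝ) (hz : 1 ≤ z)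
    (n : ℤ) : ‖Sa 1 c z n - la v n‖ ≤ C * e z n := by
  rcases lt_trichotomy n 0 with hn | hn | hn
  · rw [e_neg_case z n hn]
    unfold Sa la
    rw [if_neg hn.ne, arg2, Int.sign_eq_neg_one_of_neg hn]
    have := (h (c - 3 * n) (-(n:ℝ) * z) (one_le_mul'' z hz n hn)).2.1
    have e1 : Sf 1 (c - 3 * n) (Complex.I * ((-(n:ℝ) * z : ℝ) : ℂ)) -
        Complex.I * (Real.pi / 6) * (((-1 : ℤ)) : ℂ) =
        Sf 1 (c - 3 * n) (Complex.I * ((-(n:ℝ) * z : ℝ) : ℂ)) + Complex.I * (Real.pi / 6) := by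
      push_cast; ring
    rw [e1]; exact this
  · subst hn
    unfold Sa la e
    simp [hv]
  · rw [e_pos_case z n hn]
    unfold Sa la
    rw [if_neg hn.ne', arg1, Int.sign_eq_one_of_pos hn]
    have := (h (c - 3 * n) ((n:ℝ) * z) (one_le_mul' z hz n hn)).1
    have e1 : Sf 1 (c - 3 * n) (-(Complex.I * (((n:ℝ) * z : ℝ) : ℂ))) -
        Complex.I * (Real.pi / 6) * (((1 : ℤ)) : ℂ) =
        Sf 1 (c - 3 * n) (-(Complex.I * (((n:ℝ) * z : ℝ) : ℂ))) - Complex.I * (Real.pi / 6) := by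
      push_cast; ring
    rw [e1]; exact this

theorem Sb1 (C : ℝ) (h : CEc C) (c : ℤ) (v : ℝ) (hv : Sf 1 c 0 = (v:ℂ)) (z : ℝ) (hz : 1 ≤ z)
    (n : ℤ) : ‖Sb 1 c z n - lb v n‖ ≤ C * e z n := by
  rcases lt_trichotomy n 0 with hn | hn | hn
  · rw [e_neg_case z n hn]
    unfold Sb lb
    rw [if_neg hn.ne, arg4, Int.sign_eq_neg_one_of_neg hn]
    have := (h (c - 3 * n) (-(n:ℝ) * z) (one_le_mul'' z hz n hn)).1
    have e1 : Sf 1 (c - 3 * n) (-(Complex.I * ((-(n:ℝ) * z : ℝ) : ℂ))) -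
        -(Complex.I * (Real.pi / 6) * (((-1 : ℤ)) : ℂ)) =
        Sf 1 (c - 3 * n) (-(Complex.I * ((-(n:ℝ) * z : ℝ) : ℂ))) - Complex.I * (Real.pi / 6) := by
      push_cast; ring
    rw [e1]; exact this
  · subst hn
    unfold Sb lb e
    simp [hv]
  · rw [e_pos_case z n hn]
    unfold Sb lb
    rw [if_neg hn.ne', arg3, Int.sign_eq_one_of_pos hn]
    have := (h (c - 3 * n) ((n:ℝ) * z) (one_le_mul' z hz n hn)).2.1
    have e1 : Sf 1 (c - 3 * n) (Complex.I * (((n:ℝ) * z : ℝ) : ℂ)) -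
        -(Complex.I * (Real.pi / 6) * (((1 : ℤ)) : ℂ)) =
        Sf 1 (c - 3 * n) (Complex.I * (((n:ℝ) * z : ℝ) : ℂ)) + Complex.I * (Real.pi / 6) := by
      push_cast; ring
    rw [e1]; exact this

theorem Sar (C : ℝ) (h : CEc C) (r : ℕ) (h2 : 2 ≤ r) (h4 : r ≤ 4) (c : ℤ) (z : ℝ) (hz : 1 ≤ z)
    (n : ℤ) (hn0 : n ≠ 0) : ‖Sa r c z n‖ ≤ C * e z n := by
  rcases lt_or_gt_of_ne hn0 with hn | hn
  · rw [e_neg_case z n hn]
    unfold Sa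
    rw [arg2]
    exact ((h (c - 3 * n) (-(n:ℝ) * z) (one_le_mul'' z hz n hn)).2.2 r h2 h4).2
  · rw [e_pos_case z n hn]
    unfold Sa
    rw [arg1]
    exact ((h (c - 3 * n) ((n:ℝ) * z) (one_le_mul' z hz n hn)).2.2 r h2 h4).1

theorem Sbr (C : ℝ) (h : CEc C) (r : ℕ) (h2 : 2 ≤ r) (h4 : r ≤ 4) (c : ℤ) (z : ℝ) (hz : 1 ≤ z)
    (n : ℤ) (hn0 : n ≠ 0) : ‖Sb r c z n‖ ≤ C * e z n := by
  rcases lt_or_gt_of_ne hn0 with hn | hn
  · rw [e_neg_case z n hn]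
    unfold Sb
    rw [arg4]
    exact ((h (c - 3 * n) (-(n:ℝ) * z) (one_le_mul'' z hz n hn)).2.2 r h2 h4).1
  · rw [e_pos_case z n hn]
    unfold Sb
    rw [arg3]
    exact ((h (c - 3 * n) ((n:ℝ) * z) (one_le_mul' z hz n hn)).2.2 r h2 h4).2

theorem Sal (C : ℝ) (h : CEc C) (r : ℕ) (h2 : 2 ≤ r) (h4 : r ≤ 4) (c : ℤ) (v : ℝ)
    (hv : Sf r c 0 = (v:ℂ)) (z : ℝ) (hz : 1 ≤ z) (n : ℤ) : ‖Sa r c z n - l0 v n‖ ≤ C * e z n := by
  by_cases hn : n = 0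
  · subst hn
    unfold Sa l0 e
    simp [hv]
  · unfold l0
    rw [if_neg hn, sub_zero]
    exact Sar C h r h2 h4 c z hz n hn

theorem Sbl (C : ℝ) (h : CEc C) (r : ℕ) (h2 : 2 ≤ r) (h4 : r ≤ 4) (c : ℤ) (v : ℝ)
    (hv : Sf r c 0 = (v:ℂ)) (z : ℝ) (hz : 1 ≤ z) (n : ℤ) : ‖Sb r c z n - l0 v n‖ ≤ C * e z n := by
  by_cases hn : n = 0
  · subst hn
    unfold Sb l0 e
    simp [hv]
  · unfold l0
    rw [if_neg hn, sub_zero]
    exact Sbr C h r h2 h4 c z hz n hn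

theorem Dz_re (z : ℝ) (s : ℤ × ℤ) (n : ℤ) : (Dz z s n).re = s.2 := by
  unfold Dz; simp
theorem Dz_im (z : ℝ) (s : ℤ × ℤ) (n : ℤ) : (Dz z s n).im = ((s.1:ℝ) - 2 * n) * z := by
  unfold Dz; simp

theorem Dz_zero (z : ℝ) (hz : 1 ≤ z) (s : ℤ × ℤ) (hs : s ≠ 0) (n : ℤ) (h : Dz z s n = 0) :
    n ≠ 0 := by
  intro hn
  apply hs
  have h1 := Dz_re z s n
  have h2 := Dz_im z s n
  rw [h] at h1 h2
  simp only [Complex.zero_re, Complex.zero_im] at h1 h2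
  have hz0 : z ≠ 0 := by linarith
  have h3 : (s.1:ℝ) - 2 * n = 0 := by
    rcases mul_eq_zero.1 h2.symm with h | h
    · exact h
    · exact absurd h hz0
  rw [hn] at h3
  have h4 : (s.1:ℝ) = 0 := by simpa using h3
  have h5 : s.2 = 0 := by exact_mod_cast h1.symm
  have h6 : s.1 = 0 := by exact_mod_cast h4
  exact Prod.ext h6 h5

theorem Dz_ge (z : ℝ) (hz : 1 ≤ z) (s : ℤ × ℤ) (n : ℤ) (h : Dz z s n ≠ 0) : 1 ≤ ‖Dz z s n‖ := by
  by_cases h2 : s.2 = 0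
  · have h1 : s.1 - 2 * n ≠ 0 := by
      intro h0
      apply h
      apply Complex.ext
      · rw [Dz_re, h2]; simp
      · rw [Dz_im]
        have : (s.1:ℝ) - 2 * n = 0 := by exact_mod_cast h0
        rw [this]; simp
    refine le_trans ?_ (Complex.abs_im_le_norm _)
    rw [Dz_im, abs_mul, abs_of_pos (by linarith : 0 < z)]
    have h3 : (1:ℝ) ≤ |(s.1:ℝ) - 2 * n| := by
      have := Int.one_le_abs h1
      have h4 : ((|s.1 - 2 * n| : ℤ) : ℝ) = |(s.1:ℝ) - 2 * n| := by push_cast; rfl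
      rw [← h4]; exact_mod_cast this
    nlinarith
  · refine le_trans ?_ (Complex.abs_re_le_norm _)
    rw [Dz_re]
    have := Int.one_le_abs h2
    have h4 : ((|s.2| : ℤ) : ℝ) = |(s.2:ℝ)| := by push_cast; rfl
    rw [← h4]; exact_mod_cast this

theorem D0 (C : ℝ) (hC : 0 < C) (h : CEc C) (hv : G_CV) (z : ℝ) (hz : 1 ≤ z) (s : ℤ × ℤ)
    (hs : s ≠ 0) (n : ℤ) :
    ‖P0 z s n - M0' z s n‖ ≤ 7 * C * (e z n + e z (s.1 - n)) / max 1 ‖Dz z s n‖ := by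
  obtain ⟨v11, v13, v15, v12, v21, v23, v25, v31, v35⟩ := hv
  have e0 := e_nonneg z n
  have e1 := e_nonneg z (s.1 - n)
  by_cases hD : Dz z s n = 0
  · unfold P0 M0'
    rw [if_pos hD, hD, div_zero, sub_zero, norm_neg, norm_zero, max_eq_left zero_le_one, div_one]
    refine (Sar C h 2 le_rfl (by norm_num) 1 z hz n (Dz_zero z hz s hs n hD)).trans ?_
    nlinarith
  · have hge := Dz_ge z hz s n hD
    rw [max_eq_right hge]
    unfold P0 M0'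
    rw [if_neg hD, ← sub_div, norm_div]
    apply div_le_div_of_nonneg_right _ (norm_nonneg _)
    have a := Sa1 C h 1 w1 v11 z hz n
    have b := Sb1 C h 5 (-w1) (by rw [v15]; push_cast; rfl) z hz (s.1 - n)
    have e2 : Sa 1 1 z n + Sb 1 5 z (s.1 - n) - (la w1 n + lb (-w1) (s.1 - n)) =
        (Sa 1 1 z n - la w1 n) + (Sb 1 5 z (s.1 - n) - lb (-w1) (s.1 - n)) := by ring
    rw [e2]
    refine (norm_add_le _ _).trans ?_
    nlinarith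

theorem D2 (C : ℝ) (hC : 0 < C) (h : CEc C) (hv : G_CV) (z : ℝ) (hz : 1 ≤ z) (s : ℤ × ℤ)
    (hs : s ≠ 0) (n : ℤ) :
    ‖P2 z s n - M2' z s n‖ ≤ 7 * C * (e z n + e z (s.1 - n)) / max 1 ‖Dz z s n‖ := by
  obtain ⟨v11, v13, v15, v12, v21, v23, v25, v31, v35⟩ := hv
  have e0 := e_nonneg z n
  have e1 := e_nonneg z (s.1 - n)
  by_cases hD : Dz z s n = 0
  · unfold P2 M2'
    rw [if_pos hD, hD]
    have : -Sa 4 1 z n - ((l0 Z13 n + l0 (-Z13) (s.1 - n)) / 0 +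
      2 * (l0 (Real.pi ^ 2 / 9) n + l0 (Real.pi ^ 2 / 9) (s.1 - n)) / 0 ^ 2 +
      4 * (la w1 n + lb (-w1) (s.1 - n)) / 0 ^ 3) = -Sa 4 1 z n := by simp
    rw [this, norm_neg, norm_zero, max_eq_left zero_le_one, div_one]
    refine (Sar C h 4 (by norm_num) le_rfl 1 z hz n (Dz_zero z hz s hs n hD)).trans ?_
    nlinarith
  · have hge := Dz_ge z hz s n hD
    rw [max_eq_right hge]
    unfold P2 M2'
    rw [if_neg hD]
    have hpos : 0 < ‖Dz z s n‖ := by linarith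
    have a := Sa1 C h 1 w1 v11 z hz n
    have b := Sb1 C h 5 (-w1) (by rw [v15]; push_cast; rfl) z hz (s.1 - n)
    have a2 := Sal C h 2 le_rfl (by norm_num) 1 (Real.pi ^ 2 / 9) v21 z hz n
    have b2 := Sbl C h 2 le_rfl (by norm_num) 5 (Real.pi ^ 2 / 9) v25 z hz (s.1 - n)
    have a3 := Sal C h 3 (by norm_num) (by norm_num) 1 Z13 v31 z hz n
    have b3 := Sbl C h 3 (by norm_num) (by norm_num) 5 (-Z13) (by rw [v35]; push_cast; rfl)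
      z hz (s.1 - n)
    set x3 := (Sa 3 1 z n - l0 Z13 n) + (Sb 3 5 z (s.1 - n) - l0 (-Z13) (s.1 - n)) with hx3
    set x2 := (Sa 2 1 z n - l0 (Real.pi ^ 2 / 9) n) +
      (Sb 2 5 z (s.1 - n) - l0 (Real.pi ^ 2 / 9) (s.1 - n)) with hx2
    set x1 := (Sa 1 1 z n - la w1 n) + (Sb 1 5 z (s.1 - n) - lb (-w1) (s.1 - n)) with hx1
    have n3 : ‖x3‖ ≤ C * (e z n + e z (s.1 - n)) := by
      refine (norm_add_le _ _).trans ?_
      linarith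
    have n2 : ‖x2‖ ≤ C * (e z n + e z (s.1 - n)) := by
      refine (norm_add_le _ _).trans ?_
      linarith
    have n1 : ‖x1‖ ≤ C * (e z n + e z (s.1 - n)) := by
      refine (norm_add_le _ _).trans ?_
      linarith
    have key : ((Sa 3 1 z n + Sb 3 5 z (s.1 - n)) / Dz z s n +
      2 * (Sa 2 1 z n + Sb 2 5 z (s.1 - n)) / Dz z s n ^ 2 +
      4 * (Sa 1 1 z n + Sb 1 5 z (s.1 - n)) / Dz z s n ^ 3) -
      ((l0 Z13 n + l0 (-Z13) (s.1 - n)) / Dz z s n +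
      2 * (l0 (Real.pi ^ 2 / 9) n + l0 (Real.pi ^ 2 / 9) (s.1 - n)) / Dz z s n ^ 2 +
      4 * (la w1 n + lb (-w1) (s.1 - n)) / Dz z s n ^ 3) =
      x3 / Dz z s n + 2 * x2 / Dz z s n ^ 2 + 4 * x1 / Dz z s n ^ 3 := by
      rw [hx3, hx2, hx1]; ring
    rw [key]
    refine (norm_add₃_le).trans ?_
    rw [norm_div, norm_div, norm_div, norm_mul, norm_mul, norm_pow, norm_pow]
    have two : ‖(2:ℂ)‖ = 2 := by simp
    have four : ‖(4:ℂ)‖ = 4 := by simp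
    rw [two, four]
    set E := C * (e z n + e z (s.1 - n)) with hE
    have hE0 : 0 ≤ E := by positivity
    have t3 : ‖x3‖ / ‖Dz z s n‖ ≤ E / ‖Dz z s n‖ := by gcongr
    have t2 : 2 * ‖x2‖ / ‖Dz z s n‖ ^ 2 ≤ 2 * E / ‖Dz z s n‖ := by
      have : ‖Dz z s n‖ ≤ ‖Dz z s n‖ ^ 2 := le_self_pow₀ hge (by norm_num)
      gcongr
    have t1 : 4 * ‖x1‖ / ‖Dz z s n‖ ^ 3 ≤ 4 * E / ‖Dz z s n‖ := by
      have : ‖Dz z s n‖ ≤ ‖Dz z s n‖ ^ 3 := le_self_pow₀ hge (by norm_num)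
      gcongr
    have fin : 7 * C * (e z n + e z (s.1 - n)) / ‖Dz z s n‖ =
        E / ‖Dz z s n‖ + 2 * E / ‖Dz z s n‖ + 4 * E / ‖Dz z s n‖ := by
      rw [hE]; ring
    rw [fin]
    linarith

theorem z4 (z : ℝ) (hz : 1 ≤ z) : z ^ 4 * Real.exp (-z) ≤ 384 * Real.exp (-(z / 2)) := by
  have h := Real.pow_div_factorial_le_exp (z / 2) (by linarith) 4
  have e1 : ((Nat.factorial 4 : ℕ) : ℝ) = 24 := by norm_num [Nat.factorial]
  rw [e1] at h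
  have h2 : z ^ 4 ≤ 384 * Real.exp (z / 2) := by
    have : (z / 2) ^ 4 / 24 = z ^ 4 / 384 := by ring
    rw [this] at h
    rw [div_le_iff₀ (by norm_num)] at h
    linarith
  calc z ^ 4 * Real.exp (-z) ≤ 384 * Real.exp (z / 2) * Real.exp (-z) := by
        gcongr
    _ = 384 * (Real.exp (z / 2) * Real.exp (-z)) := by ring
    _ = 384 * Real.exp (-(z / 2)) := by rw [← Real.exp_add]; congr 2; ring

/-- the general comparison -/
theorem compare (CR : ℝ) (hCR : 0 < CR)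
    (hR : ∀ z : ℝ, 1 ≤ z → ∀ s : ℤ × ℤ, s ≠ 0 → ∀ (M : ℝ) (δ : ℤ → ℂ),
      0 ≤ M → (∀ n : ℤ, ‖δ n‖ ≤ M * ((if n = 0 then 0 else Real.exp (-(|(n:ℝ)| * z))) +
      (if s.1 - n = 0 then 0 else Real.exp (-(|((s.1 - n : ℤ):ℝ)| * z)))) / max 1 ‖Dz z s n‖) →
      Summable δ ∧ ‖∑' n : ℤ, δ n‖ ≤ CR * M * Real.exp (-z) / rk s)
    (C : ℝ) (hC : 0 < C) (z : ℝ) (hz : 1 ≤ z) (s : ℤ × ℤ) (hs : s ≠ 0) (P M : ℤ → ℂ) (a V : ℂ)
    (ha : ‖a‖ ≤ z ^ 4)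
    (hP : HasSum (fun n => a * (P n - star (P n))) V)
    (hD : ∀ n, ‖P n - M n‖ ≤ 7 * C * (e z n + e z (s.1 - n)) / max 1 ‖Dz z s n‖) :
    Summable (fun n => a * (M n - star (M n))) ∧
    ‖V - ∑' n, a * (M n - star (M n))‖ ≤ CR * 14 * C * 384 * Real.exp (-(z / 2)) / rk s := by
  set δ : ℤ → ℂ := fun n => a * ((P n - M n) - star (P n - M n)) with hδ
  have hb : ∀ n, ‖δ n‖ ≤ (14 * C * z ^ 4) * ((if n = 0 then 0 else Real.exp (-(|(n:ℝ)| * z))) +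
      (if s.1 - n = 0 then 0 else Real.exp (-(|((s.1 - n : ℤ):ℝ)| * z)))) / max 1 ‖Dz z s n‖ := by
    intro n
    have h1 : ‖(P n - M n) - star (P n - M n)‖ ≤ 2 * ‖P n - M n‖ := by
      refine (norm_sub_le _ _).trans ?_
      rw [norm_star]; linarith
    have h2 := hD n
    have h3 : ‖δ n‖ ≤ z ^ 4 * (2 * (7 * C * (e z n + e z (s.1 - n)) / max 1 ‖Dz z s n‖)) := by
      rw [hδ]
      simp only
      rw [norm_mul]
      have : ‖(P n - M n) - star (P n - M n)‖ ≤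
        2 * (7 * C * (e z n + e z (s.1 - n)) / max 1 ‖Dz z s n‖) := by linarith
      gcongr
    refine h3.trans (le_of_eq ?_)
    unfold e
    ring
  obtain ⟨s1, s2⟩ := hR z hz s hs (14 * C * z ^ 4) δ (by positivity) hb
  have hM : HasSum (fun n => a * (M n - star (M n))) (V - ∑' n, δ n) := by
    have := hP.sub s1.hasSum
    refine this.congr_fun ?_ |> fun h => h
    intro n
    simp only [hδ, star_sub]
    ring
  refine ⟨hM.summable, ?_⟩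
  rw [hM.tsum_eq, sub_sub_cancel]
  refine s2.trans ?_
  have h0 : 0 ≤ rk s := Real.sqrt_nonneg _
  apply div_le_div_of_nonneg_right _ h0
  calc CR * (14 * C * z ^ 4) * Real.exp (-z) = CR * 14 * C * (z ^ 4 * Real.exp (-z)) := by ring
    _ ≤ CR * 14 * C * (384 * Real.exp (-(z / 2))) := by
        have := z4 z hz
        gcongr
    _ = _ := by ring

theorem thm (h1 : EC237.ZE.G_CE) (h2 : EC237.ZE.G_CV) (h3 : EC237.ZE.G_NS)
    (h4 : EC237.ZE.G_ERR) : EC237.ZE.G_EE := by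
  obtain ⟨C, hC, hCE⟩ := h1
  obtain ⟨CR, hCR, hR⟩ := h4
  refine ⟨CR * 14 * C * 384, by positivity, ?_⟩
  intro z hz s hcl hs
  have hz0 : 0 < z := by linarith
  have n0 := (h3 z hz0 s).2.2.1 hcl hs
  have n2 := (h3 z hz0 s).2.2.2 hcl hs
  have zn : ‖(z:ℂ)‖ = z := by rw [Complex.norm_real, Real.norm_eq_abs, abs_of_pos hz0]
  have c0 := compare CR hCR hR C hC z hz s hs (P0 z s) (M0' z s) ((z:ℂ) ^ 2) _
    (by rw [norm_pow, zn]; exact pow_le_pow_right₀ hz (by norm_num)) n0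
    (fun n => D0 C hC hCE h2 z hz s hs n)
  have c2 := compare CR hCR hR C hC z hz s hs (P2 z s) (M2' z s) (-(z:ℂ) ^ 4) _
    (by rw [norm_neg, norm_pow, zn]) n2
    (fun n => D2 C hC hCE h2 z hz s hs n)
  exact ⟨c0.1, c0.2, c2.1, c2.2⟩

end

end EC237.ZE.PkEE
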